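import Mathlib

open Polynomial Real Filter Topology

namespace Pool.Agent.Results.MP_512501_an.RightHalf

lemma pl {f : ℂ → ℂ} {A : ℝ}
    (hd : ∀ z : ℂ, 0 ≤ z.im → z.im ≤ π / 2 → DifferentiableAt ℂ f z)
    (hA : ∀ z : ℂ, 0 ≤ z.im → z.im ≤ π / 2 → ‖f z‖ ≤ A)
    (h0 : ∀ z : ℂ, z.im = 0 → ‖f z‖ ≤ 1) (h1 : ∀ z : ℂ, z.im = π / 2 → ‖f z‖ ≤ 1)
    {z : ℂ} (a : 0 ≤ z.im) (b : z.im ≤ π / 2) : ‖f z‖ ≤ 1 := by
  have hp : (0 : ℝ) < π / 2 := by positivity
  refine PhragmenLindelof.horizontal_strip (a := 0) (b := π / 2) ?_ ⟨0, by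
    rw [sub_zero]; positivity, 0, ?_⟩ h0 h1 a b
  · refine DifferentiableOn.diffContOnCl ?_
    rw [Complex.closure_preimage_im, closure_Ioo hp.ne]
    exact fun w hw => (hd w hw.1 hw.2).differentiableWithinAt
  · refine Asymptotics.IsBigO.of_bound A (eventually_inf_principal.2 (Eventually.of_forall ?_))
    intro w hw
    simpa using hA w hw.1.le hw.2.le

lemma strip (F : ℝ[X]) {s K : ℝ} (hs : 0 < s) (h1 : ∀ x ∈ Set.Icc (-1 : ℝ) 1, |F.eval x| ≤ 1)
    (hK : ∀ ζ : ℂ, ‖ζ‖ ≤ 1 → ‖aeval ζ F‖ ≤ K)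
    (hM : exp (-(s / 2 * (π / 2))) + 2 * K ≤ exp (s / 2 * (π / 2))) :
    |F.derivative.eval 0| ≤ s := by
  set κ := s / 2 with hκ
  have hκ0 : 0 < κ := by positivity
  have hK0 : 0 ≤ K := (norm_nonneg _).trans (hK 0 (by simp))
  let ζ : ℂ → ℂ := fun η => (Complex.exp η - 1) / (Complex.exp η + 1)
  have hre : ∀ z : ℂ, 0 ≤ z.im → z.im ≤ π / 2 → 0 ≤ (Complex.exp z).re := fun z a b => by
    rw [Complex.exp_re]
    exact mul_nonneg (exp_pos _).le (cos_nonneg_of_neg_pi_div_two_le_of_le (by linarith [pi_pos]) b)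
  have hne : ∀ z : ℂ, 0 ≤ z.im → z.im ≤ π / 2 → Complex.exp z + 1 ≠ 0 := fun z a b h => by
    have := congrArg Complex.re h
    simp only [Complex.add_re, Complex.one_re, Complex.zero_re] at this
    linarith [hre z a b]
  have hζ : ∀ z : ℂ, 0 ≤ z.im → z.im ≤ π / 2 → ‖ζ z‖ ≤ 1 := fun z a b => by
    rw [norm_div, div_le_one (norm_pos_iff.2 (hne z a b)), ← sq_le_sq₀ (norm_nonneg _) (norm_nonneg _),
      Complex.sq_norm, Complex.sq_norm, Complex.normSq_apply, Complex.normSq_apply]
    simp only [Complex.add_re, Complex.sub_re, Complex.one_re, Complex.add_im, Complex.sub_im,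
      Complex.one_im]
    nlinarith [hre z a b]
  let r : ℂ → ℂ := fun η => aeval (ζ η) F
  have hdζ : ∀ z : ℂ, 0 ≤ z.im → z.im ≤ π / 2 → DifferentiableAt ℂ ζ z := fun z a b =>
    (Complex.differentiableAt_exp.sub_const 1).div (Complex.differentiableAt_exp.add_const 1)
      (hne z a b)
  have hdr : ∀ z : ℂ, 0 ≤ z.im → z.im ≤ π / 2 → DifferentiableAt ℂ r z := fun z a b =>
    (F.hasDerivAt_aeval (ζ z)).differentiableAt.comp z (hdζ z a b)
  have hrK : ∀ z : ℂ, 0 ≤ z.im → z.im ≤ π / 2 → ‖r z‖ ≤ K := fun z a b => hK _ (hζ z a b)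
  have hr0 : ∀ z : ℂ, z.im = 0 → ∃ v : ℝ, r z = v ∧ |v| ≤ 1 := fun z a => by
    have e : z = (z.re : ℂ) := Complex.ext rfl (by simpa using a)
    have e2 : ζ z = (((exp z.re - 1) / (exp z.re + 1) : ℝ) : ℂ) := by
      rw [e]; simp [ζ]
    have e3 := hζ z a.ge (by rw [a]; positivity)
    rw [e2, Complex.norm_real, Real.norm_eq_abs] at e3
    refine ⟨_, ?_, h1 _ (abs_le.1 e3)⟩
    show aeval (ζ z) F = _
    rw [e2]
    exact aeval_algebraMap_apply_eq_algebraMap_eval _ _
  have nE : ∀ z : ℂ, ‖Complex.exp (Complex.I * κ * z)‖ = exp (-(κ * z.im)) := fun z => by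
    rw [Complex.norm_exp]; simp
  have nE' : ∀ z : ℂ, ‖Complex.exp (-(Complex.I * κ * z))‖ = exp (κ * z.im) := fun z => by
    rw [Complex.norm_exp]; simp
  have eM : 0 < exp (-(κ * (π / 2))) := exp_pos _
  have step1 : ∀ z : ℂ, 0 ≤ z.im → z.im ≤ π / 2 → ‖r z‖ ≤ exp (κ * z.im) := fun z a b => by
    have := pl (f := fun η => r η * Complex.exp (Complex.I * κ * η)) (A := K)
      (fun w a b => (hdr w a b).mul (by fun_prop)) (fun w a b => by
        rw [norm_mul, nE]
        exact (mul_le_of_le_one_right (norm_nonneg _) (exp_le_one_iff.2 (by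
          have : 0 ≤ κ * w.im := by positivity
          linarith))).trans (hrK w a b)) (fun w h => by
        obtain ⟨v, hv, hv'⟩ := hr0 w h
        rw [norm_mul, nE, h, hv]
        simpa using hv') (fun w h => by
        rw [norm_mul, nE, h, exp_neg, ← div_eq_mul_inv, div_le_one (exp_pos _)]
        linarith [hrK w (by rw [h]; positivity) h.le]) a b
    rwa [norm_mul, nE, exp_neg, ← div_eq_mul_inv, div_le_one (exp_pos _)] at this
  have key : ∀ l : ℝ, |l| < 1 → l * F.derivative.eval 0 ≤ s := fun l hl => by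
    let den : ℂ → ℂ := fun η => Complex.I * Complex.exp (-(Complex.I * κ * η)) - l * r η
    let num : ℂ → ℂ := fun η => -(Complex.I * Complex.exp (Complex.I * κ * η)) - l * r η
    have d1 : ∀ z : ℂ, exp (κ * z.im) - |l| * ‖r z‖ ≤ ‖den z‖ := fun z => by
      refine le_trans (le_of_eq ?_) (norm_sub_norm_le _ _)
      rw [norm_mul, norm_mul, nE', Complex.norm_I, one_mul, Complex.norm_real, Real.norm_eq_abs]
    have n1 : ∀ z : ℂ, ‖num z‖ ≤ exp (-(κ * z.im)) + |l| * ‖r z‖ := fun z => by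
      refine (norm_sub_le _ _).trans (le_of_eq ?_)
      rw [norm_neg, norm_mul, norm_mul, nE, Complex.norm_I, one_mul, Complex.norm_real,
        Real.norm_eq_abs]
    have l0 := abs_nonneg l
    have d2 : ∀ z : ℂ, 0 ≤ z.im → z.im ≤ π / 2 → 1 - |l| ≤ ‖den z‖ := fun z a b => by
      have e1 : 1 ≤ exp (κ * z.im) := one_le_exp (by positivity)
      have e2 := mul_le_mul_of_nonneg_left (step1 z a b) l0
      nlinarith [d1 z]
    have d3 : ∀ z : ℂ, 0 ≤ z.im → z.im ≤ π / 2 → 0 < ‖den z‖ := fun z a b => by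
      linarith [d2 z a b]
    have lr : ∀ z : ℂ, 0 ≤ z.im → z.im ≤ π / 2 → |l| * ‖r z‖ ≤ K := fun z a b =>
      (mul_le_of_le_one_left (norm_nonneg _) hl.le).trans (hrK z a b)
    have step2 : ∀ z : ℂ, 0 ≤ z.im → z.im ≤ π / 2 → ‖num z‖ ≤ ‖den z‖ := fun z a b => by
      have := pl (f := fun η => num η / den η) (A := (1 + K) / (1 - |l|))
        (fun w a b => DifferentiableAt.div
          (DifferentiableAt.sub (by fun_prop) ((hdr w a b).const_mul _))
          (DifferentiableAt.sub (by fun_prop) ((hdr w a b).const_mul _))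
          (norm_pos_iff.1 (d3 w a b))) (fun w a b => by
          rw [norm_div]
          have e1 : exp (-(κ * w.im)) ≤ 1 := exp_le_one_iff.2 (by
            have : 0 ≤ κ * w.im := by positivity
            linarith)
          exact div_le_div₀ (by linarith) (by linarith [n1 w, lr w a b]) (by linarith) (d2 w a b))
        (fun w h => by
          rw [norm_div, div_le_one (d3 w h.ge (by rw [h]; positivity))]
          obtain ⟨v, hv, -⟩ := hr0 w h
          have e : w = (w.re : ℂ) := Complex.ext rfl (by simpa using h)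
          rw [← Complex.norm_conj (den w)]
          refine le_of_eq (congrArg _ ?_)
          simp only [num, den, hv]
          rw [e]
          simp [← Complex.exp_conj]) (fun w h => by
          have a : 0 ≤ w.im := by rw [h]; positivity
          rw [norm_div, div_le_one (d3 w a h.le)]
          have e1 := n1 w
          have e2 := d1 w
          rw [h] at e1 e2
          linarith [lr w a h.le]) a b
      rwa [norm_div, div_le_one (d3 z a b)] at this
    have step3 : ∀ t : ℝ, 0 ≤ t → t ≤ π / 2 →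
        0 ≤ exp (κ * t) - exp (-(κ * t)) - 2 * (l * (r (t * Complex.I)).im) := fun t a b => by
      have h := step2 (t * Complex.I) (by simpa using a) (by simpa using b)
      have e1 : Complex.exp (-(Complex.I * κ * (t * Complex.I))) = (exp (κ * t) : ℝ) := by
        rw [Complex.ofReal_exp]
        congr 1
        push_cast
        linear_combination (-(κ : ℂ) * t) * Complex.I_mul_I
      have e2 : Complex.exp (Complex.I * κ * (t * Complex.I)) = (exp (-(κ * t)) : ℝ) := by
        rw [Complex.ofReal_exp]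
        congr 1
        push_cast
        linear_combination ((κ : ℂ) * t) * Complex.I_mul_I
      simp only [num, den, e1, e2] at h
      rw [← sq_le_sq₀ (norm_nonneg _) (norm_nonneg _), Complex.sq_norm, Complex.sq_norm,
        Complex.normSq_apply, Complex.normSq_apply] at h
      simp only [Complex.sub_re, Complex.sub_im, Complex.neg_re, Complex.neg_im, Complex.mul_re,
        Complex.mul_im, Complex.I_re, Complex.I_im, Complex.ofReal_re, Complex.ofReal_im] at h
      have p1 := exp_pos (κ * t)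
      have p2 := exp_pos (-(κ * t))
      by_contra hc
      nlinarith
    have hz0 : ζ 0 = 0 := by simp [ζ]
    have hζ' : HasDerivAt ζ (1 / 2) 0 := by
      have := ((Complex.hasDerivAt_exp 0).sub_const 1).div ((Complex.hasDerivAt_exp 0).add_const 1)
        (hne 0 le_rfl (by simp; positivity))
      exact this.congr_deriv (by norm_num)
    have hr' : HasDerivAt r ((F.derivative.eval 0 : ℝ) * (1 / 2)) 0 := by
      have := (F.hasDerivAt_aeval (ζ 0)).comp 0 hζ'
      refine this.congr_deriv ?_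
      rw [hz0]
      congr 1
      exact aeval_algebraMap_apply_eq_algebraMap_eval (0 : ℝ) _
    have hv' : HasDerivAt (fun t : ℝ => (r (t * Complex.I)).im) (F.derivative.eval 0 / 2) 0 := by
      have h2 : HasDerivAt (fun w : ℂ => r (w * Complex.I))
          ((F.derivative.eval 0 : ℝ) * (1 / 2) * Complex.I) ((0 : ℝ) : ℂ) := by
        have h3 : HasDerivAt r ((F.derivative.eval 0 : ℝ) * (1 / 2)) (((0 : ℝ) : ℂ) * Complex.I) := by
          simpa using hr'
        exact h3.comp ((0 : ℝ) : ℂ) (hasDerivAt_mul_const Complex.I)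
      have h4 := Complex.imCLM.hasFDerivAt.comp_hasDerivAt (0 : ℝ) h2.comp_ofReal
      refine h4.congr_deriv ?_
      simp
      ring
    have hw : HasDerivAt (fun t : ℝ => exp (κ * t) - exp (-(κ * t)) - 2 * (l * (r (t * Complex.I)).im))
        (s - l * F.derivative.eval 0) 0 := by
      have a1 : HasDerivAt (fun t : ℝ => κ * t) κ 0 := by simpa using (hasDerivAt_id (0 : ℝ)).const_mul κ
      refine ((a1.exp.sub a1.neg.exp).sub ((hv'.const_mul l).const_mul 2)).congr_deriv ?_
      simp [hκ]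
      ring
    have hz : (r 0).im = 0 := by
      obtain ⟨v, hv, -⟩ := hr0 0 rfl
      rw [hv, Complex.ofReal_im]
    have := ge_of_tendsto hw.tendsto_slope_zero_right (b := 0) (by
      filter_upwards [Ioc_mem_nhdsGT (show (0 : ℝ) < π / 2 by positivity)] with t ht
      simp only [zero_add, mul_zero, neg_zero, sub_self, Complex.ofReal_zero, zero_mul, hz, sub_zero,
        smul_eq_mul]
      exact mul_nonneg (inv_nonneg.2 ht.1.le) (step3 t ht.1.le ht.2))
    linarith
  by_contra hc
  rw [not_le] at hc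
  have hd : F.derivative.eval 0 ≠ 0 := abs_pos.1 (hs.trans hc)
  have := key ((|F.derivative.eval 0| + s) / (2 * F.derivative.eval 0)) (by
    rw [abs_div, abs_mul, abs_two, abs_of_pos (by positivity), div_lt_one (by positivity)]
    linarith)
  rw [show (|F.derivative.eval 0| + s) / (2 * F.derivative.eval 0) * F.derivative.eval 0 =
    (|F.derivative.eval 0| + s) / 2 by field_simp] at this
  linarith

/-- The product of the factors 1 - t (1 + X). -/
noncomputable def G (τ : Multiset ℝ) : ℝ[X] := (τ.map fun t => C (1 - t) - C t * X).prod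

lemma G_cons (a : ℝ) (τ : Multiset ℝ) : G (a ::ₘ τ) = (C (1 - a) - C a * X) * G τ := by
  simp [G]

lemma G_val (a : ℝ) (τ : Multiset ℝ) : (G (a ::ₘ τ)).eval 0 = (1 - a) * (G τ).eval 0 := by
  simp [G_cons]

lemma G_der (a : ℝ) (τ : Multiset ℝ) : (G (a ::ₘ τ)).derivative.eval 0 =
    (1 - a) * (G τ).derivative.eval 0 - a * (G τ).eval 0 := by
  simp [G_cons]
  ring

lemma small_two (τ : Multiset ℝ) (h : ∀ t ∈ τ, 0 ≤ t ∧ t ≤ 2) :
    |(G τ).eval 0| ≤ 1 ∧ |(G τ).derivative.eval 0| ≤ τ.sum := by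
  induction τ using Multiset.induction_on with
  | empty => simp [G]
  | cons a τ ih =>
    obtain ⟨i1, i2⟩ := ih fun t ht => h t (Multiset.mem_cons_of_mem ht)
    obtain ⟨a0, a2⟩ := h a (Multiset.mem_cons_self _ _)
    have a1 : |1 - a| ≤ 1 := abs_le.2 ⟨by linarith, by linarith⟩
    rw [G_val, G_der, abs_mul, Multiset.sum_cons]
    refine ⟨mul_le_one₀ a1 (abs_nonneg _) i1, (abs_sub _ _).trans ?_⟩
    rw [abs_mul, abs_mul, abs_of_nonneg a0]
    have b1 := mul_le_of_le_one_left (abs_nonneg ((G τ).derivative.eval 0)) a1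
    have b2 := mul_le_of_le_one_right a0 i1
    linarith

lemma small_one (τ : Multiset ℝ) (h : ∀ t ∈ τ, 0 ≤ t ∧ t ≤ 1) :
    0 ≤ (G τ).eval 0 ∧ (G τ).derivative.eval 0 ≤ 0 := by
  induction τ using Multiset.induction_on with
  | empty => simp [G]
  | cons a τ ih =>
    obtain ⟨i1, i2⟩ := ih fun t ht => h t (Multiset.mem_cons_of_mem ht)
    obtain ⟨a0, a2⟩ := h a (Multiset.mem_cons_self _ _)
    rw [G_val, G_der]
    exact ⟨mul_nonneg (by linarith) i1, by nlinarith [mul_nonneg a0 i1]⟩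

lemma small (τ : Multiset ℝ) (h : ∀ t ∈ τ, 0 ≤ t) (hs : τ.sum ≤ 4) :
    |(G τ).derivative.eval 0| ≤ τ.sum := by
  by_cases h2 : ∀ t ∈ τ, t ≤ 2
  · exact (small_two τ fun t ht => ⟨h t ht, h2 t ht⟩).2
  push Not at h2
  obtain ⟨a, ha, a2⟩ := h2
  obtain ⟨σ, rfl⟩ := Multiset.exists_cons_of_mem ha
  rw [Multiset.sum_cons] at hs ⊢
  have h' : ∀ t ∈ σ, 0 ≤ t := fun t ht => h t (Multiset.mem_cons_of_mem ht)
  have hle : ∀ t ∈ σ, t ≤ σ.sum := fun t ht => Multiset.single_le_sum h' t ht
  have h0 : 0 ≤ σ.sum := Multiset.sum_nonneg h'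
  obtain ⟨i1, i2⟩ := small_two σ fun t ht => ⟨h' t ht, by linarith [hle t ht]⟩
  rw [G_der]
  rw [abs_le] at i2
  by_cases h1 : ∀ t ∈ σ, t ≤ 1
  · obtain ⟨j1, j2⟩ := small_one σ fun t ht => ⟨h' t ht, h1 t ht⟩
    rw [abs_le] at i1 ⊢
    have b1 : (a - 1) * -(G σ).derivative.eval 0 ≤ (a - 1) * σ.sum :=
      mul_le_mul_of_nonneg_left (by linarith [i2.1]) (by linarith)
    have b2 : 0 ≤ (a - 1) * -(G σ).derivative.eval 0 := mul_nonneg (by linarith) (by linarith)
    have b3 : a * (G σ).eval 0 ≤ a := mul_le_of_le_one_right (by linarith) i1.2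
    have b4 : 0 ≤ a * (G σ).eval 0 := mul_nonneg (by linarith) j1
    constructor <;> nlinarith
  · push Not at h1
    obtain ⟨b, hb, b1⟩ := h1
    have b2 := hle b hb
    have b3 : |(G σ).eval 0| ≤ σ.sum - 1 := by
      obtain ⟨ρ, rfl⟩ := Multiset.exists_cons_of_mem hb
      have := (small_two ρ fun t ht => ⟨h' t (Multiset.mem_cons_of_mem ht), by
        linarith [hle t (Multiset.mem_cons_of_mem ht)]⟩).1
      rw [G_val, abs_mul, abs_sub_comm, abs_of_nonneg (by linarith)]
      linarith [mul_le_of_le_one_right (show 0 ≤ b - 1 by linarith) this]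
    refine (abs_sub _ _).trans ?_
    rw [abs_mul, abs_mul, abs_sub_comm, abs_of_nonneg (by linarith), abs_of_nonneg (by linarith : 0 ≤ a)]
    have c1 : (a - 1) * |(G σ).derivative.eval 0| ≤ (a - 1) * σ.sum :=
      mul_le_mul_of_nonneg_left (abs_le.2 i2) (by linarith)
    have c2 : a * |(G σ).eval 0| ≤ a * (σ.sum - 1) := mul_le_mul_of_nonneg_left b3 (by linarith)
    nlinarith

lemma disc (τ : Multiset ℝ) (h : ∀ t ∈ τ, 0 ≤ t) {ζ : ℂ} (hζ : ‖ζ‖ ≤ 1) :
    ‖aeval ζ (G τ)‖ ≤ exp (23 / 40 * τ.sum) := by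
  induction τ using Multiset.induction_on with
  | empty => simp [G]
  | cons a τ ih =>
    have a0 := h a (Multiset.mem_cons_self _ _)
    rw [G_cons, map_mul, norm_mul, Multiset.sum_cons, mul_add, exp_add]
    refine mul_le_mul ?_ (ih fun t ht => h t (Multiset.mem_cons_of_mem ht)) (norm_nonneg _)
      (exp_pos _).le
    have e : aeval ζ (C (1 - a) - C a * X : ℝ[X]) = ((1 - a : ℝ) : ℂ) - (a : ℂ) * ζ := by simp
    rw [e]
    refine (norm_sub_le _ _).trans ?_
    rw [norm_mul, Complex.norm_real, Complex.norm_real, Real.norm_eq_abs, Real.norm_eq_abs,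
      abs_of_nonneg a0]
    have b1 := mul_le_of_le_one_right a0 hζ
    rcases le_total a 1 with c | c
    · rw [abs_of_nonneg (by linarith)]
      have : 1 ≤ exp (23 / 40 * a) := one_le_exp (by positivity)
      linarith
    · rw [abs_sub_comm, abs_of_nonneg (by linarith),
        show 23 / 40 * a = 1 + (1 / 4 + (23 / 40 * a - 5 / 4)) by ring, exp_add, exp_add]
      have e1 := exp_one_gt_d9
      have e2 := quadratic_le_exp_of_nonneg (show (0 : ℝ) ≤ 1 / 4 by norm_num)
      have e3 := add_one_le_exp (23 / 40 * a - 5 / 4)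
      have e4 : (87 / 25 : ℝ) ≤ exp 1 * exp (1 / 4) := by nlinarith
      rw [← mul_assoc]
      have e5 := mul_le_mul e4 e3 (by linarith) (by positivity)
      linarith

lemma key (τ : Multiset ℝ) (h : ∀ t ∈ τ, 0 ≤ t)
    (h1 : ∀ x ∈ Set.Icc (-1 : ℝ) 1, |(G τ).eval x| ≤ 1) : |(G τ).derivative.eval 0| ≤ τ.sum := by
  rcases le_total τ.sum 4 with hs | hs
  · exact small τ h hs
  refine strip (G τ) (by linarith) h1 (fun ζ hζ => disc τ h hζ) ?_
  set s := τ.sum
  have p := pi_gt_d2
  have e0 : exp (-(s / 2 * (π / 2))) ≤ 1 := exp_le_one_iff.2 (by nlinarith)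
  have e1 : exp (23 / 40 * s + 21 / 25) ≤ exp (s / 2 * (π / 2)) := exp_le_exp.2 (by nlinarith)
  rw [exp_add] at e1
  have e2 := quadratic_le_exp_of_nonneg (show (0 : ℝ) ≤ 21 / 25 by norm_num)
  have e3 := quadratic_le_exp_of_nonneg (show (0 : ℝ) ≤ 23 / 40 * s by linarith)
  nlinarith

/-- If all zeros of a real polynomial are real and at most 1, and its maximum modulus on [-1,1] is
attained at 1, then the maximum modulus of its derivative on [0,1] is attained at 1. -/
theorem result : ∀ Q : ℝ[X], Q.roots.card = Q.natDegree → (∀ z ∈ Q.roots, z ≤ 1) →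
    (∀ x ∈ Set.Icc (-1 : ℝ) 1, |Q.eval x| ≤ |Q.eval 1|) →
    ∀ x ∈ Set.Icc (0 : ℝ) 1, |Q.derivative.eval x| ≤ |Q.derivative.eval 1| := by
  intro Q hc hr hb x hx
  rcases hx.2.eq_or_lt with rfl | hx1
  · exact le_rfl
  by_cases hQ : Q.eval 1 = 0
  · have : Q = 0 := Q.eq_zero_of_infinite_isRoot ((Set.Icc_infinite (show (-1 : ℝ) < 1 by norm_num)).mono
      fun u hu => by simpa [hQ] using hb u hu)
    simp [this]
  have hs : Q.Splits := splits_iff_card_roots.2 hc
  have hr' : ∀ z ∈ Q.roots, 0 < 1 - z := fun z hz =>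
    sub_pos.2 ((hr z hz).lt_of_ne fun e => hQ (e ▸ isRoot_of_mem_roots hz))
  set y := 1 - x with hy
  have y0 : 0 < y := sub_pos.2 hx1
  have y1 : y ≤ 1 := by linarith [hx.1]
  set τ := Q.roots.map fun z => y / (1 - z) with hτ
  have ev : ∀ u, Q.eval (x - y * u) = Q.eval 1 * (G τ).eval u := fun u => by
    rw [hs.eval_eq_prod_roots, hs.eval_eq_prod_roots 1, G, hτ, eval_multiset_prod, Multiset.map_map,
      Multiset.map_map, mul_assoc, ← Multiset.prod_map_mul]
    congr 2
    refine Multiset.map_congr rfl fun z hz => ?_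
    have := (hr' z hz).ne'
    simp only [Function.comp, eval_sub, eval_mul, eval_C, eval_X, hy]
    field_simp
    ring
  have ed : Q.derivative.eval x * -y = Q.eval 1 * (G τ).derivative.eval 0 := by
    have a1 : HasDerivAt (fun u => x - y * u) (-y) 0 := by
      simpa using ((hasDerivAt_id (0 : ℝ)).const_mul y).const_sub x
    have a2 := (Q.hasDerivAt (x - y * 0)).comp 0 a1
    have a3 : HasDerivAt (fun u => Q.eval (x - y * u)) (Q.eval 1 * (G τ).derivative.eval 0) 0 := by
      simp only [ev]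
      exact ((G τ).hasDerivAt 0).const_mul _
    simpa using a2.unique a3
  have q0 : 0 < |Q.eval 1| := abs_pos.2 hQ
  have ht : ∀ t ∈ τ, 0 ≤ t := fun t ht => by
    obtain ⟨z, hz, rfl⟩ := Multiset.mem_map.1 ht
    exact (div_pos y0 (hr' z hz)).le
  have k := key τ ht fun u hu => by
    have := hb (x - y * u) ⟨by nlinarith [hu.2, hx.1], by nlinarith [hu.1]⟩
    rw [ev, abs_mul] at this
    exact (mul_le_iff_le_one_right q0).1 this
  have e1 : |Q.derivative.eval 1| * y = |Q.eval 1| * τ.sum := by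
    rw [← abs_of_nonneg (Multiset.sum_nonneg ht), ← abs_of_pos y0, ← abs_mul, ← abs_mul,
      hs.eval_derivative_eq_eval_mul_sum hQ, mul_assoc, ← Multiset.sum_map_mul_right, hτ]
    simp only [one_div_mul_eq_div]
  have e2 : |Q.derivative.eval x| * y = |Q.eval 1| * |(G τ).derivative.eval 0| := by
    rw [← abs_mul, ← ed, abs_mul, abs_neg, abs_of_pos y0]
  refine le_of_mul_le_mul_right ?_ y0
  rw [e1, e2]
  exact mul_le_mul_of_nonneg_left k q0.le

end Pool.Agent.Results.MP_512501_an.RightHalf
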