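import Mathlib

open Polynomial Polynomial.Chebyshev Real

namespace Pool.Agent.Results.MP_512501_an.SharpOrder

lemma T_splits (m : ℕ) : (T ℝ m).Splits := by
  rw [splits_iff_card_roots, roots_T_real, natDegree_T, Int.natAbs_natCast, Finset.card_val]
  rw [Finset.card_image_of_injOn, Finset.card_range]
  exact (Finset.range m).nodup_map_iff_injOn.1 (roots_T_real_nodup m)

lemma T_root {m : ℕ} (hm : 1 ≤ m) {z : ℝ} (hz : (T ℝ m).eval z = 0) :
    -cos (π / (2 * m)) ≤ z ∧ z ≤ 1 := by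
  have h : z ∈ (T ℝ m).roots := (mem_roots (T_ne_zero ℝ m)).2 hz
  rw [roots_T_real, Finset.mem_val, Finset.mem_image] at h
  obtain ⟨k, hk, rfl⟩ := h
  refine ⟨?_, cos_le_one _⟩
  have hk' : (k : ℝ) + 1 ≤ m := by exact_mod_cast Finset.mem_range.1 hk
  have hm' : (0 : ℝ) < m := by exact_mod_cast hm
  rw [← cos_pi_sub]
  refine cos_le_cos_of_nonneg_of_le_pi (by positivity) (sub_le_self _ (by positivity)) ?_
  rw [le_sub_iff_add_le, ← add_div, div_le_iff₀ (by positivity)]
  nlinarith [pi_pos]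

lemma T_mono (m : ℕ) {u v : ℝ} (hu : 1 ≤ u) (huv : u ≤ v) : (T ℝ m).eval u ≤ (T ℝ m).eval v := by
  have hv : 1 ≤ v := hu.trans huv
  rw [← cosh_arcosh hu, ← cosh_arcosh hv, T_real_cosh, T_real_cosh, cosh_le_cosh, abs_mul, abs_mul,
    abs_of_nonneg (arcosh_nonneg hu), abs_of_nonneg (arcosh_nonneg hv)]
  exact mul_le_mul_of_nonneg_left ((arcosh_le_arcosh (by linarith) (by linarith)).2 huv)
    (abs_nonneg _)

lemma T_le (m : ℕ) {v : ℝ} (hv : 1 ≤ v) : (T ℝ m).eval v ≤ (2 * v) ^ m := by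
  rw [← cosh_arcosh hv, T_real_cosh]
  have h0 := arcosh_nonneg hv
  generalize arcosh v = b at h0
  have h1 : cosh (((m : ℤ) : ℝ) * b) ≤ exp b ^ m := by
    rw [← exp_nat_mul, cosh_eq, Int.cast_natCast]
    have : exp (-(m * b)) ≤ exp (m * b) := exp_le_exp.2 (by
      have : 0 ≤ (m : ℝ) * b := by positivity
      linarith)
    linarith
  refine h1.trans (pow_le_pow_left₀ (exp_pos b).le ?_ m)
  rw [cosh_eq]
  linarith [exp_pos (-b)]

lemma core (m j : ℕ) (hm : 50 ≤ m) (hj1 : 2 * m ≤ j) (hj2 : j ≤ 2 * m + 3) :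
    ∃ (P : ℝ[X]) (a β ξ : ℝ), a < ξ ∧ ξ < β ∧ P.natDegree = 2 * m + j ∧ P.Splits ∧
      (∀ z, P.eval z = 0 → a ≤ z ∧ z ≤ β) ∧ (∀ u ∈ Set.Icc a β, |P.eval u| ≤ |P.eval β|) ∧
      P.derivative.eval a = 0 ∧
      ((2 * m + j : ℕ) : ℝ) / 200 * |P.derivative.eval β| < |P.derivative.eval ξ| := by
  set P : ℝ[X] := T ℝ m ^ 2 * (X - C 1) ^ j with hP
  have hm' : (50 : ℝ) ≤ m := by exact_mod_cast hm
  have hj1' : 2 * (m : ℝ) ≤ j := by exact_mod_cast hj1
  have hj2' : (j : ℝ) ≤ 2 * m + 3 := by exact_mod_cast hj2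
  have ev : ∀ u, P.eval u = (T ℝ m).eval u ^ 2 * (u - 1) ^ j := fun u => by simp [hP]
  have hP0 : P ≠ 0 := mul_ne_zero (pow_ne_zero _ (T_ne_zero ℝ m)) (pow_ne_zero _ (X_sub_C_ne_zero 1))
  have hdeg : P.natDegree = 2 * m + j := by
    rw [hP, natDegree_mul (pow_ne_zero _ (T_ne_zero ℝ m)) (pow_ne_zero _ (X_sub_C_ne_zero 1)),
      natDegree_pow, natDegree_pow, natDegree_T, natDegree_X_sub_C, Int.natAbs_natCast, mul_one]
  have hsp : P.Splits := ((T_splits m).pow 2).mul ((Splits.X_sub_C 1).pow j)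
  set a := -cos (π / (2 * m)) with ha
  set b := -cos (π / m) with hb
  have ha1 : -1 ≤ a := neg_le_neg (cos_le_one _)
  have hroot : ∀ z, P.eval z = 0 → a ≤ z ∧ z ≤ 1 := fun z hz => by
    rw [ev, mul_eq_zero] at hz
    rcases hz with hz | hz
    · exact T_root (by omega) (pow_eq_zero_iff two_ne_zero |>.1 hz)
    · rw [sub_eq_zero.1 (eq_zero_of_pow_eq_zero hz)]
      exact ⟨by linarith [neg_one_le_cos (π / (2 * m))], le_rfl⟩
  obtain ⟨β, ⟨hβ1, -⟩, hβ⟩ : ∃ β ∈ Set.Icc (1 : ℝ) 3, P.eval β = 2 ^ j := by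
    refine intermediate_value_Icc (by norm_num) P.continuous.continuousOn ⟨?_, ?_⟩
    · rw [ev, sub_self, zero_pow (by omega), mul_zero]
      positivity
    · rw [ev, show (3 : ℝ) - 1 = 2 by norm_num]
      exact le_mul_of_one_le_left (by positivity)
        (one_le_pow₀ (one_le_eval_T_real m (by norm_num)))
  have hβ2 : 8 / 5 ≤ β := by
    by_contra hc
    rw [not_le] at hc
    have h1 : (T ℝ m).eval β ^ 2 ≤ (2 * β) ^ j := by
      refine (pow_le_pow_left₀ (by linarith [one_le_eval_T_real m hβ1]) (T_le m hβ1) 2).trans ?_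
      rw [← pow_mul]
      exact pow_le_pow_right₀ (by linarith) (by omega)
    have h2 : P.eval β ≤ (2 * β * (β - 1)) ^ j := by
      rw [ev, mul_pow]
      exact mul_le_mul_of_nonneg_right h1 (pow_nonneg (by linarith) _)
    have h3 : (2 * β * (β - 1)) ^ j < 2 ^ j :=
      pow_lt_pow_left₀ (by nlinarith) (by nlinarith) (by omega)
    linarith
  have hpi : π ^ 2 < 10 := by nlinarith [pi_lt_d2, pi_pos]
  have hmpos : (0 : ℝ) < m := by linarith
  have hab : a < b := by
    refine neg_lt_neg (cos_lt_cos_of_nonneg_of_le_pi (by positivity) ?_ ?_)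
    · exact div_le_self pi_pos.le (by linarith)
    · exact div_lt_div_of_pos_left pi_pos hmpos (by linarith)
  have hb1 : b + 1 ≤ 5 / (m : ℝ) ^ 2 := by
    have h1 := one_sub_sq_div_two_le_cos (x := π / m)
    have h2 : (π / m) ^ 2 / 2 ≤ 5 / (m : ℝ) ^ 2 := by
      rw [div_pow, div_div, div_le_div_iff₀ (by positivity) (by positivity)]
      nlinarith [sq_nonneg (m : ℝ)]
    linarith
  have hb2 : 5 / (m : ℝ) ^ 2 ≤ 1 := by
    rw [div_le_one (by positivity)]
    nlinarith
  have Ta : (T ℝ m).eval a = 0 := by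
    rw [ha, ← cos_pi_sub, T_real_cos, Int.cast_natCast,
      show (m : ℝ) * (π - π / (2 * m)) = m * π - π / 2 by field_simp, cos_sub_pi_div_two,
      sin_nat_mul_pi]
  have Tb : (T ℝ m).eval b ^ 2 = 1 := by
    rw [hb, ← cos_pi_sub, T_real_cos, Int.cast_natCast,
      show (m : ℝ) * (π - π / m) = m * π - π by field_simp, cos_sub_pi, neg_sq, cos_nat_mul_pi,
      ← pow_mul, mul_comm, pow_mul]
    norm_num
  obtain ⟨ξ, hξ, hs⟩ := exists_hasDerivAt_eq_slope (fun u => P.eval u)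
    (fun u => P.derivative.eval u) hab P.continuous.continuousOn fun u _ => P.hasDerivAt u
  have two : (0 : ℝ) < 2 ^ j := by positivity
  refine ⟨P, a, β, ξ, hξ.1, by linarith [hξ.2], hdeg, hsp,
    fun z hz => ⟨(hroot z hz).1, (hroot z hz).2.trans hβ1⟩, fun u hu => ?_, ?_, ?_⟩
  · rw [hβ, abs_of_pos two]
    rcases le_total u 1 with h | h
    · rw [ev, abs_mul, abs_pow, abs_pow]
      have h1 : |(T ℝ m).eval u| ≤ 1 := abs_eval_T_real_le_one m (abs_le.2 ⟨ha1.trans hu.1, h⟩)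
      have h2 : |u - 1| ≤ 2 := abs_le.2 ⟨by linarith [hu.1], by linarith⟩
      calc |(T ℝ m).eval u| ^ 2 * |u - 1| ^ j ≤ 1 ^ 2 * 2 ^ j := by gcongr
        _ = 2 ^ j := by ring
    · have h1 := one_le_eval_T_real m h
      have h2 : 0 ≤ u - 1 := by linarith
      rw [← hβ, ev, ev, abs_of_nonneg (by positivity)]
      have h3 := T_mono m h hu.2
      have h4 := hu.2
      gcongr
  · simp [hP, derivative_mul, derivative_pow, Ta]
  · have e1 : |P.derivative.eval β| ≤ 2 ^ j * ((2 * m + j) * (5 / 3)) := by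
      rw [hsp.eval_derivative_eq_eval_mul_sum (by rw [hβ]; exact two.ne'), hβ, abs_mul,
        abs_of_pos two]
      refine mul_le_mul_of_nonneg_left ?_ two.le
      have k : ∀ y ∈ P.roots.map fun z => 1 / (β - z), 0 ≤ y ∧ y ≤ 5 / 3 := fun y hy => by
        obtain ⟨z, hz, rfl⟩ := Multiset.mem_map.1 hy
        have := (hroot z ((mem_roots hP0).1 hz)).2
        exact ⟨one_div_nonneg.2 (by linarith), by
          rw [div_le_iff₀ (by linarith)]; linarith⟩
      rw [abs_of_nonneg (Multiset.sum_nonneg fun y hy => (k y hy).1)]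
      refine (Multiset.sum_le_card_nsmul _ _ fun y hy => (k y hy).2).trans ?_
      rw [Multiset.card_map, ← hsp.natDegree_eq_card_roots, hdeg, nsmul_eq_mul]
      push_cast
      exact le_rfl
    have e2 : 2 ^ j * (89 / 100) ≤ |P.eval b| := by
      rw [ev, Tb, one_mul, abs_pow, abs_sub_comm, abs_of_nonneg (by linarith),
        show 1 - b = 2 * (1 + -((b + 1) / 2)) by ring, mul_pow]
      refine mul_le_mul_of_nonneg_left (le_trans ?_ (one_add_mul_le_pow (by linarith) j)) two.le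
      have h1 : (j : ℝ) * ((b + 1) / 2) ≤ (2 * m + 3) * (5 / (m : ℝ) ^ 2 / 2) :=
        mul_le_mul hj2' (by linarith) (by linarith) (by linarith)
      have h2 : (2 * m + 3) * (5 / (m : ℝ) ^ 2 / 2) ≤ 11 / 100 := by
        rw [div_div, ← mul_div_assoc, div_le_div_iff₀ (by positivity) (by positivity)]
        nlinarith
      linarith
    have e3 : 2 ^ j * (89 / 100) * ((m : ℝ) ^ 2 / 5) ≤ |P.derivative.eval ξ| := by
      have h0 : P.eval a = 0 := by rw [ev, Ta]; simp
      simp only [h0, sub_zero] at hs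
      rw [hs, abs_div, abs_of_pos (sub_pos.2 hab), le_div_iff₀ (sub_pos.2 hab)]
      refine le_trans ?_ e2
      rw [mul_assoc]
      refine mul_le_of_le_one_right (by positivity) ?_
      calc (m : ℝ) ^ 2 / 5 * (b - a) ≤ (m : ℝ) ^ 2 / 5 * (5 / (m : ℝ) ^ 2) :=
            mul_le_mul_of_nonneg_left (by linarith) (by positivity)
        _ = 1 := by field_simp
    refine lt_of_le_of_lt (mul_le_mul_of_nonneg_left e1 (by positivity)) (lt_of_lt_of_le ?_ e3)
    push_cast
    have h5 : (2 * (m : ℝ) + j) ^ 2 ≤ (4 * m + 3) ^ 2 :=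
      pow_le_pow_left₀ (by positivity) (by linarith) 2
    have h6 : (2 * (m : ℝ) + j) / 200 * ((2 * m + j) * (5 / 3)) < 89 / 100 * ((m : ℝ) ^ 2 / 5) := by
      nlinarith
    nlinarith

/-- For every degree n ≥ 200 there is a real polynomial with all zeros real and in [-1,1], whose
maximum modulus on [-1,1] is attained at 1, and whose derivative at an interior point exceeds
n/200 times the larger endpoint value of the derivative. -/
theorem result : ∀ n : ℕ, 200 ≤ n → ∃ Q : ℝ[X], Q.natDegree = n ∧ Q.roots.card = Q.natDegree ∧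
    (∀ z ∈ Q.roots, z ∈ Set.Icc (-1 : ℝ) 1) ∧
    (∀ x ∈ Set.Icc (-1 : ℝ) 1, |Q.eval x| ≤ |Q.eval 1|) ∧
    ∃ x₀ ∈ Set.Ioo (-1 : ℝ) 1,
      (n : ℝ) / 200 * max |Q.derivative.eval (-1)| |Q.derivative.eval 1| <
        |Q.derivative.eval x₀| := by
  intro n hn
  obtain ⟨P, a, β, ξ, h1, h2, hd, hs, hr, hb, h0, hξ⟩ :=
    core (n / 4) (n - 2 * (n / 4)) (by omega) (by omega) (by omega)
  have hn' : 2 * (n / 4) + (n - 2 * (n / 4)) = n := by omega
  rw [hn'] at hd hξ
  set s := (β - a) / 2 with hsd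
  set t := (β + a) / 2 with htd
  have hs0 : 0 < s := by rw [hsd]; linarith
  have hg : (C s * X + C t : ℝ[X]).natDegree = 1 := natDegree_linear hs0.ne'
  have ev : ∀ x, (P.comp (C s * X + C t)).eval x = P.eval (s * x + t) := fun x => by
    simp [eval_comp]
  have ed : ∀ x, (P.comp (C s * X + C t)).derivative.eval x =
      s * P.derivative.eval (s * x + t) := fun x => by
    simp [derivative_comp, eval_comp]
  have e1 : s * 1 + t = β := by rw [hsd, htd]; ring
  have e2 : s * (-1) + t = a := by rw [hsd, htd]; ring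
  refine ⟨P.comp (C s * X + C t), by rw [natDegree_comp, hd, hg, mul_one],
    splits_iff_card_roots.1 (hs.comp_of_natDegree_le_one hg.le), fun z hz => ?_, fun x hx => ?_,
    (ξ - t) / s, ⟨?_, ?_⟩, ?_⟩
  · have := hr _ ((ev z).symm.trans (isRoot_of_mem_roots hz))
    constructor <;> nlinarith [this.1, this.2]
  · rw [ev, ev, e1]
    exact hb _ ⟨by nlinarith [hx.1], by nlinarith [hx.2]⟩
  · rw [lt_div_iff₀ hs0]
    linarith
  · rw [div_lt_iff₀ hs0]
    linarith
  · rw [ed, ed, ed, e1, e2, h0, mul_zero, abs_zero, max_eq_right (abs_nonneg _),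
      show s * ((ξ - t) / s) + t = ξ by field_simp; ring, abs_mul, abs_mul, abs_of_pos hs0,
      mul_left_comm]
    exact mul_lt_mul_of_pos_left hξ hs0

end Pool.Agent.Results.MP_512501_an.SharpOrder
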